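import Mathlib

/-!
# The factorial functional on polynomials with a dominant monomial (MP_410f3c_al, Q1, partial)

If `f = c M + r` with `c ≠ 0`, `M` a monomial of total degree `D ≥ 2` and `r` of total degree at
most `D - 2`, then `L (f ^ m) ≠ 0` for all large `m`. The term `c ^ m L (M ^ m)` dominates the sum
of all others, since the factorials in the other terms are smaller by powers of `m`.
-/

set_option autoImplicit false

namespace Pool.Agent.Results.MP_410f3c_al.DominantMonomial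

open MvPolynomial Finset

/-- the factorial functional -/
noncomputable def L {n : ℕ} (p : MvPolynomial (Fin n) ℂ) : ℂ :=
  ∑ s ∈ p.support, MvPolynomial.coeff s p * ∏ i : Fin n, ((s i).factorial : ℂ)

/-- the factorial functional as a linear map -/
noncomputable def Ll (n : ℕ) : MvPolynomial (Fin n) ℂ →ₗ[ℂ] ℂ :=
  (basisMonomials (Fin n) ℂ).constr ℂ (fun s => ∏ i : Fin n, ((s i).factorial : ℂ))

lemma Ll_monomial {n : ℕ} (s : Fin n →₀ ℕ) :
    Ll n (monomial s 1) = ∏ i : Fin n, ((s i).factorial : ℂ) := by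
  have h := (basisMonomials (Fin n) ℂ).constr_basis ℂ
    (fun s : Fin n →₀ ℕ => ∏ i : Fin n, ((s i).factorial : ℂ)) s
  rw [coe_basisMonomials] at h
  exact h

lemma L_eq {n : ℕ} (p : MvPolynomial (Fin n) ℂ) : L p = Ll n p := by
  conv_rhs => rw [← support_sum_monomial_coeff p]
  rw [map_sum]
  unfold L
  refine Finset.sum_congr rfl fun s _ => ?_
  have : monomial s (coeff s p) = (coeff s p) • (monomial s (1 : ℂ)) := by
    rw [smul_monomial, smul_eq_mul, mul_one]
  rw [this, map_smul, Ll_monomial, smul_eq_mul]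

lemma pow_le_three (M j : ℕ) (hj : j ≤ M) : (M + 1) ^ j ≤ 3 * M ^ j := by
  rcases Nat.eq_zero_or_pos M with h | h
  · subst h
    have : j = 0 := by omega
    subst this; norm_num
  have hM : (0 : ℝ) < M := by exact_mod_cast h
  have h1 : ((M : ℝ) + 1) ^ j ≤ 3 * (M : ℝ) ^ j := by
    have h2 : (1 + 1 / (M : ℝ)) ≤ Real.exp (1 / M) := by
      have := Real.add_one_le_exp (1 / (M : ℝ)); linarith
    have h3 : (1 + 1 / (M : ℝ)) ^ j ≤ Real.exp 1 := by
      calc (1 + 1 / (M : ℝ)) ^ j ≤ (Real.exp (1 / M)) ^ j :=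
            pow_le_pow_left₀ (by positivity) h2 j
        _ = Real.exp (j * (1 / M)) := by rw [← Real.exp_nat_mul]
        _ ≤ Real.exp 1 := by
            apply Real.exp_le_exp.2
            have : (j : ℝ) ≤ M := by exact_mod_cast hj
            rw [mul_one_div, div_le_one hM]; exact this
    have h4 : Real.exp 1 ≤ 3 := by have := Real.exp_one_lt_d9; linarith
    have h5 : ((M : ℝ) + 1) ^ j = (1 + 1 / (M : ℝ)) ^ j * (M : ℝ) ^ j := by
      rw [← mul_pow]; congr 1; field_simp
    rw [h5]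
    exact mul_le_mul_of_nonneg_right (h3.trans h4) (by positivity)
  exact_mod_cast h1

lemma key1 (M : ℕ) : ∀ s ≤ M, M ^ s * (M - s).factorial ≤ 3 ^ s * M.factorial := by
  induction M with
  | zero => intro s hs; have : s = 0 := by omega
            subst this; simp
  | succ M ih =>
    intro s hs
    rcases Nat.eq_zero_or_pos s with h | h
    · subst h; simp
    obtain ⟨j, rfl⟩ : ∃ j, s = j + 1 := ⟨s - 1, by omega⟩
    have h1 := ih j (by omega)
    have h2 := pow_le_three M j (by omega)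
    have e1 : M + 1 - (j + 1) = M - j := by omega
    rw [e1, Nat.factorial_succ, pow_succ, pow_succ]
    rcases Nat.eq_zero_or_pos M with h0 | h0
    · subst h0
      have : j = 0 := by omega
      subst this; simp
    calc (M + 1) ^ j * (M + 1) * (M - j).factorial
        = (M + 1) * ((M + 1) ^ j * (M - j).factorial) := by ring
      _ ≤ (M + 1) * ((3 * M ^ j) * (M - j).factorial) := by gcongr
      _ = 3 * (M + 1) * (M ^ j * (M - j).factorial) := by ring
      _ ≤ 3 * (M + 1) * (3 ^ j * M.factorial) := by gcongr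
      _ = 3 ^ j * 3 * ((M + 1) * M.factorial) := by ring

lemma coord (m k a g C : ℕ) (hk : k ≤ m) (hm : 1 ≤ m) (hC : 3 ≤ C) (hC2 : m * a + g ≤ C * m) :
    ((m - k) * a + g).factorial * m ^ (k * a) ≤ (m * a).factorial * m ^ g * C ^ (g + k * a) := by
  have hka : k * a ≤ m * a := Nat.mul_le_mul_right a hk
  have hsub : (m - k) * a = m * a - k * a := Nat.sub_mul m k a
  by_cases h : k * a ≤ g
  · obtain ⟨s, rfl⟩ : ∃ s, g = k * a + s := ⟨g - k * a, by omega⟩
    have ht : (m - k) * a + (k * a + s) = m * a + s := by omega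
    rw [ht, ← Nat.factorial_mul_ascFactorial]
    have h1 : (m * a + 1).ascFactorial s ≤ (m * a + s) ^ s := Nat.ascFactorial_le_pow_add _ _
    have h2 : (m * a + s) ^ s ≤ (C * m) ^ s := Nat.pow_le_pow_left (by omega) s
    calc (m * a).factorial * (m * a + 1).ascFactorial s * m ^ (k * a)
        ≤ (m * a).factorial * (C * m) ^ s * m ^ (k * a) := by
          gcongr; exact h1.trans h2
      _ = (m * a).factorial * m ^ (k * a + s) * C ^ s := by rw [mul_pow, pow_add]; ring
      _ ≤ (m * a).factorial * m ^ (k * a + s) * C ^ (k * a + s + k * a) := by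
          gcongr
          · omega
          · omega
  · push Not at h
    obtain ⟨s, hs⟩ : ∃ s, k * a = g + s := ⟨k * a - g, by omega⟩
    have ht : (m - k) * a + g = m * a - s := by omega
    have ha : 1 ≤ a := by
      rcases Nat.eq_zero_or_pos a with h0 | h0
      · subst h0; simp at h
      · exact h0
    have h1 := key1 (m * a) s (by omega)
    have h2 : m ^ s ≤ (m * a) ^ s := Nat.pow_le_pow_left (Nat.le_mul_of_pos_right m ha) s
    rw [ht, hs]
    calc (m * a - s).factorial * m ^ (g + s)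
        = m ^ s * (m * a - s).factorial * m ^ g := by rw [pow_add]; ring
      _ ≤ (m * a) ^ s * (m * a - s).factorial * m ^ g := by gcongr
      _ ≤ 3 ^ s * (m * a).factorial * m ^ g := by gcongr
      _ ≤ C ^ s * (m * a).factorial * m ^ g := by gcongr
      _ ≤ C ^ (g + (g + s)) * (m * a).factorial * m ^ g := by
          gcongr
          · omega
          · omega
      _ = (m * a).factorial * m ^ g * C ^ (g + (g + s)) := by ring

lemma fac_bound {n : ℕ} (α γ : Fin n →₀ ℕ) (m k D : ℕ) (hD : ∑ i, α i = D + 2) (hk : k ≤ m)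
    (hm : 1 ≤ m) (hγ : ∑ i, γ i ≤ k * D) :
    (∏ i : Fin n, ((((m - k) • α + γ) i).factorial : ℝ)) * (m : ℝ) ^ (2 * k) ≤
      (∏ i : Fin n, (((m • α) i).factorial : ℝ)) * (((2 * D + 5 : ℕ) : ℝ) ^ (2 * (D + 2))) ^ k := by
  have h1 : ∀ i : Fin n, (((m - k) • α + γ) i).factorial * m ^ (k * α i) ≤
      ((m • α) i).factorial * m ^ (γ i) * (2 * D + 5) ^ (γ i + k * α i) := by
    intro i
    have hα : α i ≤ D + 2 := by
      rw [← hD]; exact Finset.single_le_sum (f := fun i => α i) (fun _ _ => Nat.zero_le _)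
        (Finset.mem_univ i)
    have hg : γ i ≤ m * D := by
      refine le_trans (Finset.single_le_sum (f := fun i => γ i) (fun _ _ => Nat.zero_le _)
        (Finset.mem_univ i)) (hγ.trans (Nat.mul_le_mul_right D hk))
    have := coord m k (α i) (γ i) (2 * D + 5) hk hm (by omega) (by nlinarith)
    simpa using this
  have h2 : (∏ i : Fin n, (((m - k) • α + γ) i).factorial) * m ^ (k * (D + 2)) ≤
      (∏ i : Fin n, ((m • α) i).factorial) * m ^ (∑ i, γ i) *
        (2 * D + 5) ^ ((∑ i, γ i) + k * (D + 2)) := by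
    have h3 := Finset.prod_le_prod' (s := (Finset.univ : Finset (Fin n))) (fun i _ => h1 i)
    rw [Finset.prod_mul_distrib, Finset.prod_mul_distrib, Finset.prod_mul_distrib,
      Finset.prod_pow_eq_pow_sum, Finset.prod_pow_eq_pow_sum, Finset.prod_pow_eq_pow_sum,
      Finset.sum_add_distrib, ← Finset.mul_sum, hD] at h3
    exact h3
  have h4 : (∏ i : Fin n, (((m - k) • α + γ) i).factorial) * m ^ (2 * k) * m ^ (k * D) ≤
      (∏ i : Fin n, ((m • α) i).factorial) * ((2 * D + 5) ^ (2 * (D + 2))) ^ k * m ^ (k * D) := by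
    calc (∏ i : Fin n, (((m - k) • α + γ) i).factorial) * m ^ (2 * k) * m ^ (k * D)
        = (∏ i : Fin n, (((m - k) • α + γ) i).factorial) * m ^ (k * (D + 2)) := by
          rw [mul_assoc, ← pow_add]; congr 2; ring
      _ ≤ (∏ i : Fin n, ((m • α) i).factorial) * m ^ (∑ i, γ i) *
        (2 * D + 5) ^ ((∑ i, γ i) + k * (D + 2)) := h2
      _ ≤ (∏ i : Fin n, ((m • α) i).factorial) * m ^ (k * D) *
        (2 * D + 5) ^ (2 * (D + 2) * k) := by
          gcongr
          · omega
          · nlinarith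
      _ = _ := by
          rw [pow_mul (2 * D + 5) (2 * (D + 2)) k]
          exact Nat.mul_right_comm _ _ _
  have h5 := Nat.le_of_mul_le_mul_right h4 (Nat.pow_pos (by omega))
  have h6 : (((∏ i : Fin n, (((m - k) • α + γ) i).factorial) * m ^ (2 * k) : ℕ) : ℝ) ≤
      (((∏ i : Fin n, ((m • α) i).factorial) * ((2 * D + 5) ^ (2 * (D + 2))) ^ k : ℕ) : ℝ) := by
    exact_mod_cast h5
  push_cast at h6 ⊢
  exact h6

lemma bd {n : ℕ} (r : MvPolynomial (Fin n) ℂ) (e : ℕ) (hr : ∀ s ∈ r.support, ∑ i, s i ≤ e) :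
    ∀ (k : ℕ) (δ : Fin n →₀ ℕ) (B : ℝ),
      (∀ γ : Fin n →₀ ℕ, ∑ i, γ i ≤ k * e → ∏ i : Fin n, (((δ + γ) i).factorial : ℝ) ≤ B) →
      ‖Ll n (monomial δ 1 * r ^ k)‖ ≤ (∑ s ∈ r.support, ‖coeff s r‖) ^ k * B := by
  intro k
  induction k with
  | zero =>
    intro δ B hB
    rw [pow_zero, mul_one, Ll_monomial, pow_zero, one_mul]
    have := hB 0 (by simp)
    rw [norm_prod]
    simpa using this
  | succ k ih =>
    intro δ B hB
    have h1 : monomial δ (1 : ℂ) * r ^ (k + 1) =
        ∑ s ∈ r.support, (coeff s r) • (monomial (δ + s) (1 : ℂ) * r ^ k) := by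
      rw [pow_succ']
      conv_lhs => rw [← mul_assoc]
      conv_lhs => enter [1, 2]; rw [← support_sum_monomial_coeff r]
      rw [Finset.mul_sum, Finset.sum_mul]
      refine Finset.sum_congr rfl fun s _ => ?_
      rw [monomial_mul, one_mul, ← smul_mul_assoc, smul_monomial, smul_eq_mul, mul_one]
    rw [h1, map_sum]
    refine (norm_sum_le _ _).trans ?_
    rw [pow_succ', mul_assoc, Finset.sum_mul]
    refine Finset.sum_le_sum fun s hs => ?_
    rw [map_smul, norm_smul]
    refine mul_le_mul_of_nonneg_left ?_ (norm_nonneg _)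
    refine ih (δ + s) B fun γ hγ => ?_
    have h2 := hB (s + γ) (by
      simp only [Finsupp.add_apply, Finset.sum_add_distrib]
      have := hr s hs
      nlinarith)
    rw [← add_assoc] at h2
    exact h2

/-- If `f = c M + r` where `c ≠ 0`, `M` is a monomial of total degree at least `2` and every
monomial of `r` has total degree at most `deg M - 2`, then `L (f ^ m) ≠ 0` for all large `m`. -/
theorem result {n : ℕ} (α : Fin n →₀ ℕ) (c : ℂ) (hc : c ≠ 0) (r : MvPolynomial (Fin n) ℂ)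
    (hα : 2 ≤ ∑ i, α i) (hr : ∀ s ∈ r.support, (∑ i, s i) + 2 ≤ ∑ i, α i) :
    ∃ N : ℕ, ∀ m : ℕ, N ≤ m → L ((monomial α c + r) ^ m) ≠ 0 := by
  obtain ⟨D, hD⟩ : ∃ D, ∑ i, α i = D + 2 := ⟨(∑ i, α i) - 2, by omega⟩
  set R : ℝ := ∑ s ∈ r.support, ‖coeff s r‖ with hR
  have hR0 : 0 ≤ R := Finset.sum_nonneg fun _ _ => norm_nonneg _
  set A : ℝ := ((2 * D + 5 : ℕ) : ℝ) ^ (2 * (D + 2)) with hA
  have hA0 : 0 ≤ A := by positivity
  have hcn : 0 < ‖c‖ := norm_pos_iff.2 hc
  set B : ℝ := R * A / ‖c‖ with hB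
  have hB0 : 0 ≤ B := by positivity
  obtain ⟨N, hN⟩ := exists_nat_gt (2 * B)
  refine ⟨N + 1, fun m hm => ?_⟩
  have hm1 : 1 ≤ m := by omega
  have hmR : (0 : ℝ) < m := by exact_mod_cast hm1
  have hmN : 2 * B ≤ m := by
    have : (N : ℝ) + 1 ≤ m := by exact_mod_cast hm
    linarith
  rw [L_eq, add_comm, add_pow, map_sum, Finset.sum_range_succ']
  set F : ℝ := ∏ i : Fin n, (((m • α) i).factorial : ℝ) with hF
  have hF0 : 0 < F := Finset.prod_pos fun i _ => by positivity
  have hmon : ∀ j, (monomial α c) ^ j = (c ^ j) • monomial (j • α) (1 : ℂ) := by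
    intro j
    rw [monomial_pow, smul_monomial, smul_eq_mul, mul_one]
  have hterm : ∀ k, k ≤ m → ‖Ll n (r ^ k * (monomial α c) ^ (m - k) * ((m.choose k : ℕ) :
      MvPolynomial (Fin n) ℂ))‖ ≤ (m.choose k : ℝ) * (B / m ^ 2) ^ k * (‖c‖ ^ m * F) := by
    intro k hk
    have h1 : r ^ k * (monomial α c) ^ (m - k) * ((m.choose k : ℕ) : MvPolynomial (Fin n) ℂ) =
        ((m.choose k : ℂ) * c ^ (m - k)) • (monomial ((m - k) • α) (1 : ℂ) * r ^ k) := by
      rw [hmon, ← map_natCast (C : ℂ →+* MvPolynomial (Fin n) ℂ), mul_smul, ← C_mul', C_mul']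
      rw [smul_eq_C_mul, smul_eq_C_mul, smul_eq_C_mul]
      ring
    rw [h1, map_smul, norm_smul, norm_mul, norm_pow]
    have h2 := bd r D (fun s hs => by have := hr s hs; omega) k ((m - k) • α)
      (F * A ^ k / (m : ℝ) ^ (2 * k)) (fun γ hγ => by
        rw [le_div_iff₀ (by positivity)]
        exact fac_bound α γ m k D hD hk hm1 hγ)
    have h3 : ‖((m.choose k : ℕ) : ℂ)‖ = (m.choose k : ℝ) := by simp
    rw [h3]
    refine (mul_le_mul_of_nonneg_left h2 (by positivity)).trans (le_of_eq ?_)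
    rw [← hR, hB]
    have h4 : ‖c‖ ^ m = ‖c‖ ^ (m - k) * ‖c‖ ^ k := by rw [← pow_add]; congr 1; omega
    rw [h4, div_pow, div_pow, mul_pow, pow_mul]
    have h5 : ‖c‖ ^ k ≠ 0 := by positivity
    have h6 : ((m : ℝ) ^ 2) ^ k ≠ 0 := by positivity
    field_simp
  have hfirst : Ll n (r ^ 0 * (monomial α c) ^ (m - 0) * ((m.choose 0 : ℕ) :
      MvPolynomial (Fin n) ℂ)) = c ^ m * ((F : ℝ) : ℂ) := by
    rw [pow_zero, one_mul, Nat.sub_zero, Nat.choose_zero_right, Nat.cast_one, mul_one, hmon,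
      map_smul, Ll_monomial, smul_eq_mul, hF]
    push_cast
    rfl
  rw [hfirst]
  intro hzero
  have h1 : ‖c ^ m * ((F : ℝ) : ℂ)‖ = ‖c‖ ^ m * F := by
    rw [norm_mul, norm_pow, Complex.norm_real, Real.norm_of_nonneg hF0.le]
  have h2 : ‖c ^ m * ((F : ℝ) : ℂ)‖ ≤ ∑ k ∈ range m, (m.choose (k + 1) : ℝ) *
      (B / m ^ 2) ^ (k + 1) * (‖c‖ ^ m * F) := by
    rw [eq_neg_of_add_eq_zero_right hzero, norm_neg]
    refine (norm_sum_le _ _).trans (Finset.sum_le_sum fun k hk => ?_)
    exact hterm (k + 1) (by have := Finset.mem_range.1 hk; omega)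
  rw [h1] at h2
  rw [← Finset.sum_mul] at h2
  have hP : 0 < ‖c‖ ^ m * F := by positivity
  have h3 : 1 ≤ ∑ k ∈ range m, (m.choose (k + 1) : ℝ) * (B / m ^ 2) ^ (k + 1) := by
    by_contra h
    push Not at h
    nlinarith
  have h4 : (1 + B / m ^ 2) ^ m =
      (∑ k ∈ range m, (m.choose (k + 1) : ℝ) * (B / m ^ 2) ^ (k + 1)) + 1 := by
    rw [add_comm (1 : ℝ), add_pow, Finset.sum_range_succ']
    simp only [one_pow, mul_one, pow_zero, Nat.choose_zero_right, Nat.cast_one]
    congr 1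
    exact Finset.sum_congr rfl fun k _ => mul_comm _ _
  have h5 : (1 + B / (m : ℝ) ^ 2) ^ m ≤ Real.exp (B / m) := by
    have h6 : 1 + B / (m : ℝ) ^ 2 ≤ Real.exp (B / (m : ℝ) ^ 2) := by
      have := Real.add_one_le_exp (B / (m : ℝ) ^ 2); linarith
    refine (pow_le_pow_left₀ (by positivity) h6 m).trans (le_of_eq ?_)
    rw [← Real.exp_nat_mul]
    congr 1
    field_simp
  have h6 : Real.exp (B / m) ≤ Real.exp (1 / 2) := by
    apply Real.exp_le_exp.2
    rw [div_le_iff₀ hmR]; linarith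
  have h7 : Real.exp (1 / 2) < 2 := by
    have h8 : Real.exp (1 / 2) * Real.exp (1 / 2) = Real.exp 1 := by
      rw [← Real.exp_add]; norm_num
    have h9 := Real.exp_one_lt_d9
    have h10 := Real.exp_pos (1 / 2 : ℝ)
    nlinarith
  linarith

end Pool.Agent.Results.MP_410f3c_al.DominantMonomial
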